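import Pool.Agent.H313.SX.Jz
import Pool.Graph.R_pool_sql_team_seeded_3997aac3.Q97.UM.Jm

set_option autoImplicit false

/-!
# MP_69b2e4_nt: the order of the joint discrete moments of the derivative and of the argument from below, all real exponents

No hypothesis is made. `S(t)` is the remainder term of the Riemann-von Mangoldt formula. There is `d > 0` such that for every `A` there is
`c > 0` with: for ALL real `k`, `l` with `|k| + |l| ≤ A` and all large `T` (uniformly in `k`, `l`), the sum of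
`|ζ'(ρ)|^(2k) exp (2 l π S(γ))` over the simple zeros `ρ = 1/2 + iγ`, `T < γ ≤ 2T`, which have distance at least `d / log T` from all other
nontrivial zeros, is at least `c T (log T)^((k + 1)² + l²)`.
-/

namespace Pool.Agent.Results.MP_69b2e4_nt.JointDiscreteMoments

open Filter Topology MeasureTheory Complex

noncomputable section

/-- the simple zeros on the critical line with ordinate in `(T, 2T]` at distance at least `d / log T` from every other nontrivial zero -/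
def isolated (d T : ℝ) : Set ℂ := {s : ℂ | s.re = 1 / 2 ∧ T < s.im ∧ s.im ≤ 2 * T ∧ riemannZeta s = 0 ∧ deriv riemannZeta s ≠ 0 ∧
  ∀ ρ : ℂ, riemannZeta ρ = 0 → 0 < ρ.re → ρ.re < 1 → ρ ≠ s → d / Real.log T ≤ ‖ρ - s‖}

/-- the number `N(t)` of the nontrivial zeros with ordinate in `(0, t]`, counted with multiplicity -/
def N (t : ℝ) : ℕ := ∑ᶠ s ∈ {s : ℂ | riemannZeta s = 0 ∧ 0 < s.re ∧ s.re < 1 ∧ 0 < s.im ∧ s.im ≤ t}, analyticOrderNatAt riemannZeta s

/-- the remainder term of the Riemann-von Mangoldt formula (`π⁻¹ arg ζ(1/2 + it)` up to `O(1/t)`) -/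
def S (t : ℝ) : ℝ :=
  (N t : ℝ) - (t / (2 * Real.pi) * Real.log (t / (2 * Real.pi)) - t / (2 * Real.pi) + 7 / 8)

/-- the joint discrete moment -/
def moment (k l d T : ℝ) : ℝ := ∑ᶠ s ∈ isolated d T, ‖deriv riemannZeta s‖ ^ (2 * k) * Real.exp (2 * l * (Real.pi * S s.im))

lemma N_eq (t : ℝ) : N t = H370.NN riemannZeta 0 t := by
  unfold N H370.NN
  have : {s : ℂ | riemannZeta s = 0 ∧ 0 < s.re ∧ s.re < 1 ∧ 0 < s.im ∧ s.im ≤ t} = H370.zset riemannZeta 0 t := by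
    ext s
    simp only [H370.zset, Set.mem_ofPred_eq]
    tauto
  rw [this]
  rfl

lemma N_add {t : ℝ} (ht : 1 ≤ t) : (N t : ℝ) = N 1 + (H370.NN riemannZeta 1 t : ℝ) := by
  rw [N_eq, N_eq]
  have h : H370.zset riemannZeta 0 t = H370.zset riemannZeta 0 1 ∪ H370.zset riemannZeta 1 t := by
    ext s
    simp only [H370.zset, Set.mem_ofPred_eq, Set.mem_union]
    constructor
    · rintro ⟨a1, a2, a3, a4, a5⟩
      rcases le_or_gt s.im 1 with h1 | h1
      · exact Or.inl ⟨a1, a2, a3, h1, a5⟩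
      · exact Or.inr ⟨a1, a2, h1, a4, a5⟩
    · rintro (⟨a1, a2, a3, a4, a5⟩ | ⟨a1, a2, a3, a4, a5⟩)
      · exact ⟨a1, a2, a3, a4.trans ht, a5⟩
      · exact ⟨a1, a2, by linarith, a4, a5⟩
  have hd : Disjoint (H370.zset riemannZeta 0 1) (H370.zset riemannZeta 1 t) := by
    rw [Set.disjoint_left]
    rintro s ⟨-, -, -, h1, -⟩ ⟨-, -, h2, -, -⟩
    linarith
  unfold H370.NN
  rw [h, finsum_mem_union hd (H370.zeta_zeros_finite 1) ((H370.zeta_zeros_finite t).subset ?_)]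
  · push_cast
    ring
  · rintro s ⟨a1, a2, a3, a4, a5⟩
    exact ⟨a1, a2, by linarith, a4, a5⟩

lemma S_eq {t : ℝ} (ht : 1 ≤ t) : S t = Pool.Agent.K4H8.JG.E1 t + (N 1 - 7 / 8) := by
  unfold S Pool.Agent.K4H8.JG.E1 Pool.Agent.K4H8.JG.Em
  rw [N_add ht]
  ring

theorem isolated_finite (d T : ℝ) (hT : 0 < T) : (isolated d T).Finite := by
  refine (H370.zset_finite' H370.good_zeta T (2 * T) hT).subset ?_
  rintro s ⟨h1, h2, h3, h4, -⟩
  simp only [H370.zset, Set.mem_ofPred_eq]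
  exact ⟨by rw [h1]; norm_num, by rw [h1]; norm_num, h2, h3, h4⟩

theorem result :
    (∀ d T : ℝ, 0 < T → (isolated d T).Finite) ∧
    ∃ d : ℝ, 0 < d ∧ ∀ A : ℝ, ∃ c T₀ : ℝ, 0 < c ∧ ∀ T : ℝ, T₀ ≤ T → ∀ k l : ℝ, |k| + |l| ≤ A →
      c * T * Real.log T ^ ((k + 1) ^ 2 + l ^ 2) ≤ moment k l d T := by
  classical
  refine ⟨isolated_finite, ?_⟩
  obtain ⟨d₀, hd₀, hmain⟩ := Pool.Agent.H313.SX.joint_low_z
  refine ⟨min d₀ 1, by positivity, fun A => ?_⟩
  obtain ⟨A', hA', hA1, hA0⟩ : ∃ A' : ℝ, A ≤ A' ∧ 1 ≤ A' ∧ 0 ≤ A' :=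
    ⟨max A 1, le_max_left _ _, le_max_right _ _, le_trans zero_le_one (le_max_right _ _)⟩
  obtain ⟨c, hc, h⟩ := hmain A' hA1
  obtain ⟨T₀, hT₀⟩ := eventually_atTop.1 (h.and (eventually_ge_atTop (16 : ℝ)))
  obtain ⟨e, he⟩ : ∃ e : ℝ, e = (N 1 : ℝ) - 7 / 8 := ⟨_, rfl⟩
  obtain ⟨r, hr⟩ : ∃ r : ℝ, r = Real.exp (-(2 * A' * (Real.pi * |e|))) := ⟨_, rfl⟩
  have hr0 : 0 < r := by rw [hr]; exact Real.exp_pos _
  refine ⟨r * c, T₀, by positivity, fun T hT k l hkl => ?_⟩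
  obtain ⟨h1, hT16⟩ := hT₀ T hT
  have h2 := h1 k l (hkl.trans hA')
  have hL : 0 < Real.log T := Real.log_pos (by linarith)
  have hl : |l| ≤ A' := by
    have := abs_nonneg k
    linarith
  have hset : isolated (min d₀ 1) T = ((Pool.Agent.Q97.UM.ZI (min d₀ 1) T : Finset ℂ) : Set ℂ) := by
    ext s
    rw [SetLike.mem_coe, Pool.Agent.Q97.UM.mem_ZI_iff hT16 (min_le_right _ _)]
    rfl
  have hmom : moment k l (min d₀ 1) T = ∑ s ∈ Pool.Agent.Q97.UM.ZI (min d₀ 1) T,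
      ‖deriv riemannZeta s‖ ^ (2 * k) * Real.exp (2 * l * (Real.pi * S s.im)) := by
    unfold moment
    rw [hset, finsum_mem_coe_finset]
  rw [hmom]
  have h3 : ∀ s ∈ Pool.Agent.Q97.UM.ZI (min d₀ 1) T, r * (‖deriv riemannZeta s‖ ^ (2 * k) * Real.exp (2 * l * (Real.pi * Pool.Agent.K4H8.JG.E1 s.im))) ≤
      ‖deriv riemannZeta s‖ ^ (2 * k) * Real.exp (2 * l * (Real.pi * S s.im)) := by
    intro s hs
    rw [Pool.Agent.Q97.UM.mem_ZI_iff hT16 (min_le_right _ _)] at hs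
    rw [S_eq (by linarith [hs.2.1]), ← he]
    have e2 : Real.exp (2 * l * (Real.pi * (Pool.Agent.K4H8.JG.E1 s.im + e))) =
        Real.exp (2 * l * (Real.pi * e)) * Real.exp (2 * l * (Real.pi * Pool.Agent.K4H8.JG.E1 s.im)) := by
      rw [← Real.exp_add]
      congr 1
      ring
    rw [e2]
    have h3 : r ≤ Real.exp (2 * l * (Real.pi * e)) := by
      rw [hr]
      apply Real.exp_le_exp.2
      have h4 : |l * (Real.pi * e)| ≤ A' * (Real.pi * |e|) := by
        rw [abs_mul, abs_mul, abs_of_pos Real.pi_pos]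
        exact mul_le_mul_of_nonneg_right hl (by positivity)
      have h5 := (abs_le.1 h4).1
      linarith
    have h6 : (0 : ℝ) ≤ ‖deriv riemannZeta s‖ ^ (2 * k) * Real.exp (2 * l * (Real.pi * Pool.Agent.K4H8.JG.E1 s.im)) := by positivity
    calc r * (‖deriv riemannZeta s‖ ^ (2 * k) * Real.exp (2 * l * (Real.pi * Pool.Agent.K4H8.JG.E1 s.im))) ≤
        Real.exp (2 * l * (Real.pi * e)) * (‖deriv riemannZeta s‖ ^ (2 * k) * Real.exp (2 * l * (Real.pi * Pool.Agent.K4H8.JG.E1 s.im))) :=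
          mul_le_mul_of_nonneg_right h3 h6
      _ = _ := by ring
  have h4 : ∑ s ∈ Pool.Agent.Q97.UM.ZI d₀ T, ‖deriv riemannZeta s‖ ^ (2 * k) * Real.exp (2 * l * (Real.pi * Pool.Agent.K4H8.JG.E1 s.im)) ≤
      ∑ s ∈ Pool.Agent.Q97.UM.ZI (min d₀ 1) T, ‖deriv riemannZeta s‖ ^ (2 * k) * Real.exp (2 * l * (Real.pi * Pool.Agent.K4H8.JG.E1 s.im)) :=
    Finset.sum_le_sum_of_subset_of_nonneg (Pool.Agent.Q97.UM.ZI_anti (by linarith) (min_le_left _ _)) fun _ _ _ => by positivity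
  have e1 : r * c * T * Real.log T ^ ((k + 1) ^ 2 + l ^ 2) =
      r * (c * T * Real.log T ^ (1 + 2 * k) * Real.exp ((k ^ 2 + l ^ 2) * Real.log (Real.log T))) := by
    rw [Real.rpow_def_of_pos hL, Real.rpow_def_of_pos hL]
    have e3 : Real.exp (Real.log (Real.log T) * ((k + 1) ^ 2 + l ^ 2)) =
        Real.exp (Real.log (Real.log T) * (1 + 2 * k)) * Real.exp ((k ^ 2 + l ^ 2) * Real.log (Real.log T)) := by
      rw [← Real.exp_add]
      congr 1
      ring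
    rw [e3]
    ring
  rw [e1]
  calc r * (c * T * Real.log T ^ (1 + 2 * k) * Real.exp ((k ^ 2 + l ^ 2) * Real.log (Real.log T))) ≤
      r * ∑ s ∈ Pool.Agent.Q97.UM.ZI (min d₀ 1) T, ‖deriv riemannZeta s‖ ^ (2 * k) * Real.exp (2 * l * (Real.pi * Pool.Agent.K4H8.JG.E1 s.im)) :=
        mul_le_mul_of_nonneg_left (h2.trans h4) hr0.le
    _ ≤ _ := by
        rw [Finset.mul_sum]
        exact Finset.sum_le_sum h3

end

end Pool.Agent.Results.MP_69b2e4_nt.JointDiscreteMoments
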