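import Pool.Agent.H474.MS.Nt5

set_option autoImplicit false

/-! # The case `λ = -1` of the Gonek-Hejhal conjecture and the mean square of `M((1+δ)u) - M(u)`

`J_{-1}(T)` has the order `T` (and RH holds) if and only if the logarithmic mean squares of `(M((1+δ)u) - M(u)) / √(δu)` lie between two
positive constants as `δ → 0+`; it is asymptotic to `a T` if and only if they converge to `2 π a`. -/

namespace Pool.Agent.Results.MP_69b2e4_nt.MeanSquareCriterion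

open Filter Topology

/-- The Mertens function `M(u)`, the sum of the Möbius function over the integers `1 ≤ n ≤ u`. -/
noncomputable def M (u : ℝ) : ℝ := ∑ n ∈ Finset.Icc 1 ⌊u⌋₊, ((ArithmeticFunction.moebius n : ℤ) : ℝ)

/-- The square of the sum of `μ(n)` over `u < n ≤ (1+δ) u`, divided by the length `δ u` of the interval. -/
noncomputable def D (δ u : ℝ) : ℝ := (M ((1 + δ) * u) - M u) ^ 2 / (δ * u)

/-- The mean of `g(u)` over `[1, x]` with respect to the logarithmic measure `du/u`. -/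
noncomputable def logMean (g : ℝ → ℝ) (x : ℝ) : ℝ := (∫ u in (1 : ℝ)..x, g u / u) / Real.log x

/-- The nontrivial zeros of the Riemann zeta function. -/
def Zeros : Set ℂ := {ρ | riemannZeta ρ = 0 ∧ 0 < ρ.re ∧ ρ.re < 1}

/-- The weight, in `[0, ∞]`, of a zero `ρ`: it is `1 / |ρ ζ'(ρ)|²` if `ρ` is simple and on the critical line, and `∞` otherwise. -/
noncomputable def weight (ρ : ℂ) : ENNReal :=
  if ρ.re = 1 / 2 ∧ deriv riemannZeta ρ ≠ 0 then ENNReal.ofReal (1 / ‖ρ * deriv riemannZeta ρ‖ ^ 2) else ⊤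

/-- `V(δ)`, in `[0, ∞]`: the sum over the zeros of `weight(ρ) |(1+δ)^ρ - 1|²`, divided by `δ`. -/
noncomputable def V (δ : ℝ) : ENNReal :=
  ∑' ρ : Zeros, weight ρ * ENNReal.ofReal (‖((1 + δ : ℝ) : ℂ) ^ (ρ : ℂ) - 1‖ ^ 2 / δ)

/-- `J_{-1}(T)`, in `[0, ∞]`: the sum of `1 / |ζ'(ρ)|²` (which is `∞` if `ζ'(ρ) = 0`) over the zeros with `0 < Im ρ ≤ T`. -/
noncomputable def J (T : ℝ) : ENNReal :=
  ∑' ρ : Zeros, if 0 < (ρ : ℂ).im ∧ (ρ : ℂ).im ≤ T then (ENNReal.ofReal (‖deriv riemannZeta ρ‖ ^ 2))⁻¹ else 0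

/-- All nontrivial zeros are simple. -/
def SimpleZeros : Prop := ∀ ρ ∈ Zeros, deriv riemannZeta ρ ≠ 0

/-- `J_{-1}(T)` has the order of magnitude `T`: the case `λ = -1` of the conjecture. -/
def OrderT : Prop :=
  ∃ c₁ c₂ T₀ : ℝ, 0 < c₁ ∧ ∀ T : ℝ, T₀ ≤ T → ENNReal.ofReal (c₁ * T) ≤ J T ∧ J T ≤ ENNReal.ofReal (c₂ * T)

/-- `V(δ)` lies between two positive constants for all sufficiently small `δ > 0`. -/
def OrderOne : Prop :=
  ∃ c₁ c₂ δ₀ : ℝ, 0 < c₁ ∧ 0 < δ₀ ∧ ∀ δ : ℝ, 0 < δ → δ ≤ δ₀ → ENNReal.ofReal c₁ ≤ V δ ∧ V δ ≤ ENNReal.ofReal c₂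

lemma K_pos : (0 : ℝ) < 6 / Real.pi ^ 2 := by
  have := Real.pi_pos
  positivity

lemma V_eq {δ : ℝ} (hδ : 0 < δ) : V δ = ENNReal.ofReal (6 / Real.pi ^ 2) * Pool.Agent.H474.MS.vE δ := by
  have hK := K_pos
  unfold V Pool.Agent.H474.MS.vE
  rw [← ENNReal.tsum_mul_left]
  refine tsum_congr fun ρ => ?_
  rw [mul_left_comm]
  have e : ENNReal.ofReal (‖((1 + δ : ℝ) : ℂ) ^ (ρ : ℂ) - 1‖ ^ 2 / δ) = ENNReal.ofReal (6 / Real.pi ^ 2) *
      ENNReal.ofReal (‖((1 + δ : ℝ) : ℂ) ^ (ρ : ℂ) - 1‖ ^ 2 / (6 / Real.pi ^ 2 * δ)) := by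
    rw [← ENNReal.ofReal_mul hK.le]
    congr 1
    field_simp
  rw [e]
  rfl

lemma mean_eq {δ x : ℝ} (hδ : 0 < δ) (hx : 1 ≤ x) :
    logMean (D δ) x = 6 / Real.pi ^ 2 * Pool.Agent.H474.MS.DD δ x := by
  have hK := K_pos
  unfold logMean Pool.Agent.H474.MS.DD
  rw [← mul_div_assoc, ← intervalIntegral.integral_const_mul]
  congr 1
  refine intervalIntegral.integral_congr fun u hu => ?_
  rw [Set.uIcc_of_le hx] at hu
  have hu0 : 0 < u := lt_of_lt_of_le one_pos hu.1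
  show (M ((1 + δ) * u) - M u) ^ 2 / (δ * u) / u = 6 / Real.pi ^ 2 * (((M ((1 + δ) * u) - M u) / √(6 / Real.pi ^ 2 * δ * u)) ^ 2 / u)
  rw [div_pow, Real.sq_sqrt (by positivity)]
  have := Real.pi_pos
  field_simp

lemma order_one_iff : OrderOne ↔ ∃ c C δ0 : ℝ, 0 < c ∧ 0 < δ0 ∧ ∀ δ : ℝ, 0 < δ → δ ≤ δ0 →
    ENNReal.ofReal c ≤ Pool.Agent.H474.MS.vE δ ∧ Pool.Agent.H474.MS.vE δ ≤ ENNReal.ofReal C := by
  have hK := K_pos
  obtain ⟨K, hKe⟩ : ∃ K : ℝ, K = 6 / Real.pi ^ 2 := ⟨_, rfl⟩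
  rw [← hKe] at hK
  have h0 : ENNReal.ofReal K ≠ 0 := (ENNReal.ofReal_pos.2 hK).ne'
  have ht : ENNReal.ofReal K ≠ ⊤ := ENNReal.ofReal_ne_top
  constructor
  · rintro ⟨c, C, δ0, hc, hδ0, h⟩
    refine ⟨c / K, C / K, δ0, by positivity, hδ0, fun δ h1 h2 => ?_⟩
    obtain ⟨h3, h4⟩ := h δ h1 h2
    rw [V_eq h1, ← hKe] at h3 h4
    have e1 : ENNReal.ofReal c = ENNReal.ofReal K * ENNReal.ofReal (c / K) := by
      rw [← ENNReal.ofReal_mul hK.le]; congr 1; field_simp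
    have e2 : ENNReal.ofReal C = ENNReal.ofReal K * ENNReal.ofReal (C / K) := by
      rw [← ENNReal.ofReal_mul hK.le]; congr 1; field_simp
    rw [e1] at h3
    rw [e2] at h4
    exact ⟨(ENNReal.mul_le_mul_iff_right h0 ht).1 h3, (ENNReal.mul_le_mul_iff_right h0 ht).1 h4⟩
  · rintro ⟨c, C, δ0, hc, hδ0, h⟩
    refine ⟨K * c, K * C, δ0, by positivity, hδ0, fun δ h1 h2 => ?_⟩
    obtain ⟨h3, h4⟩ := h δ h1 h2
    rw [V_eq h1, ← hKe, ENNReal.ofReal_mul hK.le, ENNReal.ofReal_mul hK.le]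
    exact ⟨(ENNReal.mul_le_mul_iff_right h0 ht).2 h3, (ENNReal.mul_le_mul_iff_right h0 ht).2 h4⟩

/-- **Theorem.** (i) Unconditionally, for every `δ > 0` the logarithmic mean of `(M((1+δ)u) - M(u))² / (δu)` over `1 ≤ u ≤ x` tends, as
`x → ∞`, to `V(δ)` in `[0, ∞]`.
(ii) `V(δ)` lies between two positive constants for all small `δ > 0` if and only if the Riemann hypothesis holds, all nontrivial zeros are
simple and `J_{-1}(T)` has the order of magnitude `T`.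
(iii) For every real `a ≥ 0`: `V(δ) → 2 π a` as `δ → 0+` if and only if the Riemann hypothesis holds, all nontrivial zeros are simple and
`J_{-1}(T) / T → a`. -/
theorem result :
    (∀ δ : ℝ, 0 < δ → Tendsto (fun x => ENNReal.ofReal (logMean (D δ) x)) atTop (𝓝 (V δ))) ∧
    (OrderOne ↔ RiemannHypothesis ∧ SimpleZeros ∧ OrderT) ∧
    (∀ a : ℝ, 0 ≤ a → (Tendsto V (𝓝[>] 0) (𝓝 (ENNReal.ofReal (2 * Real.pi * a))) ↔
      RiemannHypothesis ∧ SimpleZeros ∧ Tendsto (fun T => J T / ENNReal.ofReal T) atTop (𝓝 (ENNReal.ofReal a)))) := by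
  have hK := K_pos
  have hpi := Real.pi_pos
  have h0 : ENNReal.ofReal (6 / Real.pi ^ 2) ≠ 0 := (ENNReal.ofReal_pos.2 hK).ne'
  have ht : ENNReal.ofReal (6 / Real.pi ^ 2) ≠ ⊤ := ENNReal.ofReal_ne_top
  refine ⟨fun δ hδ => ?_, ?_, fun a ha => ?_⟩
  · rw [V_eq hδ]
    have h1 := ENNReal.Tendsto.const_mul (a := ENNReal.ofReal (6 / Real.pi ^ 2)) (Pool.Agent.H474.MS.DD_lim hδ) (Or.inr ht)
    refine h1.congr' ?_
    filter_upwards [eventually_ge_atTop (1 : ℝ)] with x hx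
    rw [mean_eq hδ hx, ENNReal.ofReal_mul hK.le]
  · rw [order_one_iff, Pool.Agent.H474.MS.order_iff]
    constructor
    · rintro ⟨hRH, h⟩
      have h1 := Pool.Agent.H474.MS.order_iff.2 ⟨hRH, h⟩
      obtain ⟨c, C, δ0, -, hδ0, h2⟩ := h1
      have hz : Pool.Agent.H474.MS.ZC :=
        Pool.Agent.H474.MS.of_vE hδ0 (ne_top_of_le_ne_top ENNReal.ofReal_ne_top (h2 δ0 hδ0 le_rfl).2)
      exact ⟨hRH, hz.2.1, h⟩
    · rintro ⟨hRH, -, h⟩
      exact ⟨hRH, h⟩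
  · have e1 : Tendsto V (𝓝[>] 0) (𝓝 (ENNReal.ofReal (2 * Real.pi * a))) ↔
        Tendsto Pool.Agent.H474.MS.vE (𝓝[>] 0) (𝓝 (ENNReal.ofReal (Real.pi ^ 3 / 3 * a))) := by
      have e2 : ENNReal.ofReal (2 * Real.pi * a) = ENNReal.ofReal (6 / Real.pi ^ 2) * ENNReal.ofReal (Real.pi ^ 3 / 3 * a) := by
        rw [← ENNReal.ofReal_mul hK.le]
        congr 1
        field_simp
        ring
      constructor
      · intro h
        have h1 := ENNReal.Tendsto.const_mul (a := (ENNReal.ofReal (6 / Real.pi ^ 2))⁻¹) h (Or.inr (ENNReal.inv_ne_top.2 h0))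
        rw [e2, ← mul_assoc, ENNReal.inv_mul_cancel h0 ht, one_mul] at h1
        refine h1.congr' ?_
        filter_upwards [self_mem_nhdsWithin] with δ hδ
        rw [V_eq hδ, ← mul_assoc, ENNReal.inv_mul_cancel h0 ht, one_mul]
      · intro h
        rw [e2]
        refine (ENNReal.Tendsto.const_mul h (Or.inr ht)).congr' ?_
        filter_upwards [self_mem_nhdsWithin] with δ hδ
        rw [V_eq hδ]
    have e3 : (3 / Real.pi ^ 3 * (Real.pi ^ 3 / 3 * a)) = a := by field_simp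
    rw [e1, Pool.Agent.H474.MS.lim_iff _ (by positivity), e3]
    constructor
    · rintro ⟨hRH, h⟩
      have h1 := (Pool.Agent.H474.MS.lim_iff (Real.pi ^ 3 / 3 * a) (by positivity)).2 ⟨hRH, by rw [e3]; exact h⟩
      have h2 : ∀ᶠ δ in 𝓝[>] (0 : ℝ), Pool.Agent.H474.MS.vE δ < ⊤ := h1.eventually (gt_mem_nhds ENNReal.ofReal_lt_top)
      obtain ⟨δ, hδ, hδ0⟩ := (h2.and self_mem_nhdsWithin).exists
      have hz : Pool.Agent.H474.MS.ZC := Pool.Agent.H474.MS.of_vE hδ0 hδ.ne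
      exact ⟨hRH, hz.2.1, h⟩
    · rintro ⟨hRH, -, h⟩
      exact ⟨hRH, h⟩

end Pool.Agent.Results.MP_69b2e4_nt.MeanSquareCriterion
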